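import Pool.Agent.helper57.DH.SpecL

/-!
# Project d2: (MP_5823cb_al), part L: row LEL: enlarging dyadic cells of many levels
-/

set_option autoImplicit false

open Filter Topology MeasureTheory
open scoped commutatorElement

namespace Pool.Agent.helper90.DH

open Pool.Agent.helper64.D2

theorem LEL_nest {s s' : ℕ} {k k' : ℤ} (hss : s' ≤ s) {x : ℝ} (hx : x ∈ cell s k) (hx' : x ∈ cell s' k') :
    k' * 2 ^ (s - s') ≤ k ∧ k + 1 ≤ (k' + 1) * 2 ^ (s - s') := by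
  obtain ⟨h1, h2⟩ := hx
  obtain ⟨h3, h4⟩ := hx'
  have hps : (0 : ℝ) < 2 ^ s := by positivity
  have hps' : (0 : ℝ) < 2 ^ s' := by positivity
  have hd : (2 : ℝ) ^ s = 2 ^ (s - s') * 2 ^ s' := by
    rw [← pow_add]
    congr 1
    omega
  have hpd : (0 : ℝ) < 2 ^ (s - s') := by positivity
  rw [div_le_iff₀ hps] at h1
  rw [lt_div_iff₀ hps] at h2
  rw [div_le_iff₀ hps'] at h3
  rw [lt_div_iff₀ hps'] at h4
  constructor
  · have h5 : ((k' * 2 ^ (s - s') : ℤ) : ℝ) < ((k + 1 : ℤ) : ℝ) := by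
      push_cast
      calc (k' : ℝ) * 2 ^ (s - s') ≤ (x * 2 ^ s') * 2 ^ (s - s') := by gcongr
        _ = x * 2 ^ s := by rw [hd]; ring
        _ < _ := h2
    have h6 := Int.cast_lt.mp h5
    omega
  · have h5 : ((k : ℤ) : ℝ) < (((k' + 1) * 2 ^ (s - s') : ℤ) : ℝ) := by
      push_cast
      calc (k : ℝ) ≤ x * 2 ^ s := h1
        _ = (x * 2 ^ s') * 2 ^ (s - s') := by rw [hd]; ring
        _ < _ := by gcongr
    have h6 := Int.cast_lt.mp h5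
    omega

theorem LEL_cs {s s' : ℕ} {k k' : ℤ} (hss : s' ≤ s) (h1 : k' * 2 ^ (s - s') ≤ k) (h2 : k + 1 ≤ (k' + 1) * 2 ^ (s - s')) (r : ℝ) (hr : 0 ≤ r) :
    ((k' : ℝ) - r) / 2 ^ s' ≤ ((k : ℝ) - r) / 2 ^ s ∧ ((k : ℝ) + 1 + r) / 2 ^ s ≤ ((k' : ℝ) + 1 + r) / 2 ^ s' := by
  have hps : (0 : ℝ) < 2 ^ s := by positivity
  have hps' : (0 : ℝ) < 2 ^ s' := by positivity
  have hd : (2 : ℝ) ^ s = 2 ^ (s - s') * 2 ^ s' := by
    rw [← pow_add]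
    congr 1
    omega
  have hpd : (1 : ℝ) ≤ 2 ^ (s - s') := one_le_pow₀ (by norm_num)
  have h1' : (k' : ℝ) * 2 ^ (s - s') ≤ k := by exact_mod_cast h1
  have h2' : (k : ℝ) + 1 ≤ (k' + 1) * 2 ^ (s - s') := by exact_mod_cast h2
  rw [div_le_div_iff₀ hps' hps, div_le_div_iff₀ hps hps', hd]
  constructor
  · have h3 : ((k' : ℝ) - r) * 2 ^ (s - s') ≤ k - r := by nlinarith
    calc ((k' : ℝ) - r) * (2 ^ (s - s') * 2 ^ s') = (((k' : ℝ) - r) * 2 ^ (s - s')) * 2 ^ s' := by ring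
      _ ≤ _ := by gcongr
  · have h3 : (k : ℝ) + 1 + r ≤ (k' + 1 + r) * 2 ^ (s - s') := by nlinarith
    calc ((k : ℝ) + 1 + r) * 2 ^ s' ≤ ((k' + 1 + r) * 2 ^ (s - s')) * 2 ^ s' := by gcongr
      _ = _ := by ring

theorem LEL_sub {s s' : ℕ} {k k' : ℤ} (hss : s' ≤ s) (h1 : k' * 2 ^ (s - s') ≤ k) (h2 : k + 1 ≤ (k' + 1) * 2 ^ (s - s')) :
    cell s k ⊆ cell s' k' := by
  obtain ⟨h3, h4⟩ := LEL_cs hss h1 h2 0 le_rfl
  simp only [sub_zero, add_zero] at h3 h4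
  exact Set.Ico_subset_Ico h3 h4

theorem LEL_left (s : ℕ) (k : ℤ) : (k : ℝ) / 2 ^ s ∈ cell s k := by
  refine ⟨le_rfl, ?_⟩
  have : (0 : ℝ) < 2 ^ s := by positivity
  gcongr
  linarith

theorem LEL : LEL_stmt := by
  classical
  intro r s0 N A hr hA
  set F : Finset (ℕ × ℤ) := ((Finset.range N) ×ˢ (Finset.Ico (0 : ℤ) (2 ^ N))).filter
    (fun p => s0 ≤ p.1 ∧ p.2 ∈ A p.1 ∧ ∀ s' k', s0 ≤ s' → s' < p.1 → k' ∈ A s' → ¬ (cell p.1 p.2 ⊆ cell s' k')) with hF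
  have hmem : ∀ p : ℕ × ℤ, p ∈ F ↔ (s0 ≤ p.1 ∧ p.1 < N) ∧ p.2 ∈ A p.1 ∧
      ∀ s' k', s0 ≤ s' → s' < p.1 → k' ∈ A s' → ¬ (cell p.1 p.2 ⊆ cell s' k') := by
    rintro ⟨s, k⟩
    rw [hF, Finset.mem_filter, Finset.mem_product, Finset.mem_range, Finset.mem_Ico]
    constructor
    · rintro ⟨⟨h1, h2, h3⟩, h4, h5, h6⟩
      exact ⟨⟨h4, h1⟩, h5, h6⟩
    · rintro ⟨⟨h1, h2⟩, h3, h4⟩
      obtain ⟨h5, h6⟩ := hA s k h3
      refine ⟨⟨h2, h5, lt_of_lt_of_le h6 ?_⟩, h1, h3, h4⟩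
      exact pow_le_pow_right₀ (by norm_num) h2.le
  -- every cell is contained in a kept one
  have hkept : ∀ s : ℕ, s0 ≤ s → s < N → ∀ k ∈ A s, ∃ p ∈ F, p.1 ≤ s ∧ cell s k ⊆ cell p.1 p.2 := by
    intro s
    induction s using Nat.strong_induction_on with
    | _ s ih =>
      intro h0 hN k hk
      by_cases hc : ∀ s' k', s0 ≤ s' → s' < s → k' ∈ A s' → ¬ (cell s k ⊆ cell s' k')
      · exact ⟨(s, k), (hmem _).2 ⟨⟨h0, hN⟩, hk, hc⟩, le_rfl, subset_rfl⟩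
      · push Not at hc
        obtain ⟨s', k', h1, h2, h3, h4⟩ := hc
        obtain ⟨p, hp, h5, h6⟩ := ih s' h2 h1 (h2.trans hN) k' h3
        exact ⟨p, hp, h5.trans h2.le, h4.trans h6⟩
  -- the kept ones are disjoint
  have hdisj : ∀ p ∈ F, ∀ p' ∈ F, p.1 ≤ p'.1 → p ≠ p' → Disjoint (cell p.1 p.2) (cell p'.1 p'.2) := by
    intro p hp p' hp' hle hne
    rw [Set.disjoint_left]
    intro x hx hx'
    obtain ⟨h1, h2⟩ := LEL_nest hle hx' hx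
    rcases hle.lt_or_eq with hlt | heq
    · exact ((hmem p').1 hp').2.2 p.1 p.2 ((hmem p).1 hp).1.1 hlt ((hmem p).1 hp).2.1 (LEL_sub hle h1 h2)
    · rw [heq] at h1 h2
      simp at h1 h2
      exact hne (Prod.ext heq (by omega))
  have hpd : (F : Set (ℕ × ℤ)).PairwiseDisjoint (fun p => cell p.1 p.2) := by
    intro p hp p' hp' hne
    rcases le_total p.1 p'.1 with h | h
    · exact hdisj p hp p' hp' h hne
    · exact (hdisj p' hp' p hp h hne.symm).symm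
  have hvol : ∀ (s : ℕ) (k : ℤ), volume.real (cell s k) = 1 / 2 ^ s := by
    intro s k
    have h1 : (k : ℝ) / 2 ^ s ≤ ((k : ℝ) + 1) / 2 ^ s := by gcongr; linarith
    unfold cell
    rw [Real.volume_real_Ico_of_le h1]
    ring
  have hvolN : ∀ (s : ℕ) (k : ℤ), volume.real (Set.Icc (((k : ℝ) - r) / 2 ^ s) (((k : ℝ) + 1 + r) / 2 ^ s)) = (2 * r + 1) * (1 / 2 ^ s) := by
    intro s k
    have h1 : ((k : ℝ) - r) / 2 ^ s ≤ ((k : ℝ) + 1 + r) / 2 ^ s := by gcongr; linarith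
    rw [Real.volume_real_Icc_of_le h1]
    ring
  -- the left side
  have hL : (⋃ s ∈ Set.Ico s0 N, Nb r s (A s)) ⊆ ⋃ p ∈ F, Set.Icc (((p.2 : ℝ) - r) / 2 ^ p.1) (((p.2 : ℝ) + 1 + r) / 2 ^ p.1) := by
    intro x hx
    rw [Set.mem_iUnion₂] at hx
    obtain ⟨s, hs, k, hk, h1, h2⟩ := hx
    obtain ⟨p, hp, h3, h4⟩ := hkept s hs.1 hs.2 k hk
    obtain ⟨h5, h6⟩ := LEL_nest h3 (LEL_left s k) (h4 (LEL_left s k))
    obtain ⟨h7, h8⟩ := LEL_cs h3 h5 h6 r hr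
    rw [Set.mem_iUnion₂]
    exact ⟨p, hp, h7.trans h1, h2.trans h8⟩
  have hLf : volume (⋃ p ∈ F, Set.Icc (((p.2 : ℝ) - r) / 2 ^ p.1) (((p.2 : ℝ) + 1 + r) / 2 ^ p.1)) ≠ ⊤ := by
    refine ne_top_of_le_ne_top ?_ (measure_biUnion_finset_le F _)
    rw [ENNReal.sum_ne_top]
    intro p _
    exact measure_Icc_lt_top.ne
  -- the right side
  have hR : (⋃ p ∈ F, cell p.1 p.2) ⊆ ⋃ s ∈ Set.Ico s0 N, ⋃ k ∈ A s, cell s k := by
    intro x hx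
    rw [Set.mem_iUnion₂] at hx
    obtain ⟨p, hp, hxp⟩ := hx
    have h1 := (hmem p).1 hp
    rw [Set.mem_iUnion₂]
    refine ⟨p.1, ⟨h1.1.1, h1.1.2⟩, ?_⟩
    rw [Set.mem_iUnion₂]
    exact ⟨p.2, h1.2.1, hxp⟩
  have hRf : volume (⋃ s ∈ Set.Ico s0 N, ⋃ k ∈ A s, cell s k) ≠ ⊤ := by
    refine ne_top_of_le_ne_top (b := volume (⋃ p ∈ F, cell p.1 p.2)) ?_ (measure_mono ?_)
    · refine ne_top_of_le_ne_top ?_ (measure_biUnion_finset_le F _)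
      rw [ENNReal.sum_ne_top]
      intro p _
      exact measure_Ico_lt_top.ne
    · intro x hx
      rw [Set.mem_iUnion₂] at hx
      obtain ⟨s, hs, hx⟩ := hx
      rw [Set.mem_iUnion₂] at hx
      obtain ⟨k, hk, hx⟩ := hx
      obtain ⟨p, hp, h3, h4⟩ := hkept s hs.1 hs.2 k hk
      rw [Set.mem_iUnion₂]
      exact ⟨p, hp, h4 hx⟩
  calc volume.real (⋃ s ∈ Set.Ico s0 N, Nb r s (A s))
      ≤ volume.real (⋃ p ∈ F, Set.Icc (((p.2 : ℝ) - r) / 2 ^ p.1) (((p.2 : ℝ) + 1 + r) / 2 ^ p.1)) := measureReal_mono hL hLf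
    _ ≤ ∑ p ∈ F, volume.real (Set.Icc (((p.2 : ℝ) - r) / 2 ^ p.1) (((p.2 : ℝ) + 1 + r) / 2 ^ p.1)) := measureReal_biUnion_finset_le F _
    _ = (2 * r + 1) * ∑ p ∈ F, volume.real (cell p.1 p.2) := by
        rw [Finset.mul_sum]
        apply Finset.sum_congr rfl
        intro p _
        rw [hvolN, hvol]
    _ = (2 * r + 1) * volume.real (⋃ p ∈ F, cell p.1 p.2) := by
        rw [measureReal_biUnion_finset hpd (fun p _ => measurableSet_Ico) (fun p _ => measure_Ico_lt_top.ne)]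
    _ ≤ _ := by
        apply mul_le_mul_of_nonneg_left _ (by linarith)
        exact measureReal_mono hR hRf

end Pool.Agent.helper90.DH
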