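import Pool.Agent.helper18.DH.SpecM
import Pool.Agent.helper13.D2.SZC

/-!
# Project dh: row MNCA: calculus of `g''/g'`
-/

set_option autoImplicit false

open Filter Topology MeasureTheory
open scoped commutatorElement

namespace Pool.Agent.helper90.DH

open Pool.Agent.helper64.D2

theorem NCA_one1 (x : ℝ) : deriv (ev 1) x = 1 := by
  have h : ev 1 = fun y : ℝ => y := by
    funext y
    exact ev_one y
  rw [h]
  exact (hasDerivAt_id x).deriv

theorem NCA_one2 (x : ℝ) : d2 (ev 1) x = 0 := by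
  have h : deriv (ev 1) = fun _ : ℝ => (1 : ℝ) := by
    funext y
    exact NCA_one1 y
  unfold d2
  rw [h]
  exact deriv_const x 1

theorem NCA_inv1 (g : DD) (x : ℝ) : deriv (ev g) (ev g⁻¹ x) * deriv (ev g⁻¹) x = 1 := by
  rw [← SZC_chain, mul_inv_cancel]
  exact NCA_one1 x

theorem NCA_inv2 (g : DD) (x : ℝ) : d2 (ev g) (ev g⁻¹ x) * deriv (ev g⁻¹) x ^ 2 + deriv (ev g) (ev g⁻¹ x) * d2 (ev g⁻¹) x = 0 := by
  rw [← SZC_chain2, mul_inv_cancel]
  exact NCA_one2 x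

theorem NCA_pos (g : DD) (x : ℝ) : 0 < deriv (ev g) x := by
  have h1 : 0 ≤ deriv (ev g) x := (ev_mono g).deriv_nonneg
  have h2 := NCA_inv1 g (ev g x)
  rw [ev_inv] at h2
  rcases h1.lt_or_eq with h | h
  · exact h
  · rw [← h, zero_mul] at h2
    exact absurd h2 zero_ne_one

theorem NCA : NCA_stmt := by
  have h7 : ∀ (g h : DD) (x : ℝ), Nn (g * h) x = Nn g (ev h x) * deriv (ev h) x + Nn h x := by
    intro g h x
    unfold Nn
    rw [SZC_chain, SZC_chain2]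
    have e1 := (NCA_pos g (ev h x)).ne'
    have e2 := (NCA_pos h x).ne'
    field_simp
  have h9 : ∀ x : ℝ, Nn 1 x = 0 := by
    intro x
    unfold Nn
    rw [NCA_one2, zero_div]
  refine ⟨NCA_pos, SZC_chain, SZC_chain2, ?_, ?_, ?_, h7, ?_, fun x => ⟨h9 x, NCA_one1 x, NCA_one2 x⟩⟩
  · intro g x
    have e := NCA_inv1 g x
    have e1 := (NCA_pos g (ev g⁻¹ x)).ne'
    rw [eq_div_iff e1]
    linarith
  · intro g x
    have e := NCA_inv1 g x
    have e2 := NCA_inv2 g x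
    have e1 := (NCA_pos g (ev g⁻¹ x)).ne'
    have e3 : deriv (ev g⁻¹) x = 1 / deriv (ev g) (ev g⁻¹ x) := by
      rw [eq_div_iff e1]
      linarith
    rw [e3] at e2
    have e4 : deriv (ev g) (ev g⁻¹ x) * d2 (ev g⁻¹) x = -(d2 (ev g) (ev g⁻¹ x) * (1 / deriv (ev g) (ev g⁻¹ x)) ^ 2) := by
      linarith
    have e5 : d2 (ev g⁻¹) x = -(d2 (ev g) (ev g⁻¹ x) * (1 / deriv (ev g) (ev g⁻¹ x)) ^ 2) / deriv (ev g) (ev g⁻¹ x) := by
      rw [eq_div_iff e1, mul_comm]
      exact e4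
    rw [e5]
    field_simp
  · intro g x
    unfold Nn
    rw [div_mul_cancel₀ _ (NCA_pos g x).ne']
  · intro g x
    have e := h7 g g⁻¹ x
    rw [mul_inv_cancel, h9] at e
    linarith

end Pool.Agent.helper90.DH
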